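import Pool.Agent.Y204.MC.Final

/-!
# (-1)-curves that are not (-1)-Weyl lines on blow-ups of `ℙⁿ` in `n + 4` general points

For every `n ≥ 6` and general `p 0, …, p (n + 3) ∈ ℙⁿ` the blow-up of `ℙⁿ` at these points contains
a (-1)-curve of the class
`(4 n - 3) h - 3 (e 0 + … + e 6) - 4 (e 7 + … + e n) - 3 (e (n+1) + e (n+2) + e (n+3))`,
which is not in the orbit of a class `h - e i - e j` under the Weyl group.
-/

namespace Pool.Agent.Results.MP_04a7d6_ag.NonWeylCurvesNFour

open Pool.Agent.H403R3 Pool.Agent.Y204.MC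

/-- For every `n ≥ 6` and general `p 0, …, p (n + 3)` the `p i` are pairwise distinct points of `ℙⁿ`
and the blow-up of `ℙⁿ` at these points contains a (-1)-curve of degree `4 n - 3` whose class is not
in the Weyl group orbit of the classes `h - e i - e j`. -/
theorem result (n : ℕ) (hn : 6 ≤ n) :
    Generally n (n + 4) fun p => Distinct p ∧ ∃ γ : RatCurve p, γ.IsMinusOneCurve ∧
      γ.cls = (4 * (n : ℤ) - 3, Pool.Agent.Y204.MC.mult n) ∧ ¬ InWeylOrbit n (n + 4) γ.cls :=
  main n hn

end Pool.Agent.Results.MP_04a7d6_ag.NonWeylCurvesNFour
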